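import Pool.Agent.Helper54.SR.Defs

/-!
# SR-D5b: reduction modulo a monic polynomial does not increase the weight
-/

set_option autoImplicit false

open Polynomial

namespace Pool.Agent.Helper54.SR

section series

variable {k : Type} [Field k]

private theorem h67_laurent_mul {a b : ℤ} {x y : LaurentSeries k}
    (hx : ∀ e, a < e → x.coeff e = 0) (hy : ∀ e, b < e → y.coeff e = 0) (e : ℤ)
    (he : a + b < e) : (x * y).coeff e = 0 := by
  rw [HahnSeries.coeff_mul]
  refine Finset.sum_eq_zero fun p hp => ?_
  rw [Finset.mem_antidiagonal] at hp
  obtain ⟨h1, h2, h3⟩ := hp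
  rcases lt_or_ge a p.1 with h | h
  · exact absurd (hx _ h) h1
  · rcases lt_or_ge b p.2 with h' | h'
    · exact absurd (hy _ h') h2
    · omega

private theorem h67_BD_mul {a b : ℤ} {x y : EE k} (hx : BD a x) (hy : BD b y) :
    BD (a + b) (x * y) := by
  intro r e he
  rw [PowerSeries.coeff_mul, HahnSeries.coeff_sum]
  exact Finset.sum_eq_zero fun p _ => h67_laurent_mul (hx p.1) (hy p.2) e he

private theorem h67_BD_sub {a : ℤ} {x y : EE k} (hx : BD a x) (hy : BD a y) :
    BD a (x - y) := by
  intro r e he
  rw [map_sub, HahnSeries.coeff_sub, hx r e he, hy r e he, sub_zero]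

private theorem h67_BD_zero (a : ℤ) : BD a (0 : EE k) := by
  intro r e _
  rw [map_zero, HahnSeries.coeff_zero]

/-- SR-D5b -/
theorem WF.modByMonic {d n : ℕ} {m : ℤ} {f : Polynomial (EE k)} (hf : f.Monic)
    (hn : f.natDegree = n) (hfW : WF d (d * n) f) {H : Polynomial (EE k)} (h : WF d m H) :
    WF d m (H %ₘ f) := by
  have hfd : f.degree = n := by
    rw [Polynomial.degree_eq_natDegree hf.ne_zero, hn]
  have key : ∀ (N : ℕ) (H : Polynomial (EE k)), H.degree < N → WF d m H → WF d m (H %ₘ f) := by
    intro N
    induction N with
    | zero =>
      intro H hd hH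
      have h0 : H = 0 := by
        rw [← Polynomial.degree_eq_bot]
        by_contra hc
        rw [Polynomial.degree_eq_natDegree (fun h => hc (by rw [h, Polynomial.degree_zero]))] at hd
        exact absurd hd (by simp)
      rw [h0, Polynomial.zero_modByMonic]
      rwa [h0] at hH
    | succ N ih =>
      intro H hd hH
      rcases Nat.lt_or_ge N n with hNn | hNn
      · have : H %ₘ f = H := by
          rw [Polynomial.modByMonic_eq_self_iff hf, hfd]
          exact hd.trans_le (by exact_mod_cast hNn)
        rwa [this]
      · set K := Polynomial.C (H.coeff N) * (X ^ (N - n) * f) with hK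
        have e1 : H %ₘ f = (H - K) %ₘ f := by
          rw [Polynomial.sub_modByMonic, hK, ← mul_assoc, Polynomial.mul_self_modByMonic hf,
            sub_zero]
        have hKc : ∀ j, K.coeff j = if N - n ≤ j then H.coeff N * f.coeff (j - (N - n)) else 0 := by
          intro j
          rw [hK, Polynomial.coeff_C_mul, Polynomial.coeff_X_pow_mul']
          split_ifs
          · rfl
          · rw [mul_zero]
        rw [e1]
        refine ih (H - K) ?_ ?_
        · rw [Polynomial.degree_lt_iff_coeff_zero]
          intro j hj
          rw [Polynomial.coeff_sub, hKc j, if_pos (by omega)]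
          rcases hj.lt_or_eq with hj | hj
          · have h1 : H.coeff j = 0 := by
              refine Polynomial.coeff_eq_zero_of_degree_lt (hd.trans_le ?_)
              exact_mod_cast hj
            have h2 : f.coeff (j - (N - n)) = 0 := by
              refine Polynomial.coeff_eq_zero_of_natDegree_lt ?_
              omega
            rw [h1, h2, mul_zero, sub_zero]
          · have h2 : j - (N - n) = f.natDegree := by omega
            rw [h2, hf.coeff_natDegree, mul_one, hj, sub_self]
        · intro j
          rw [Polynomial.coeff_sub]
          refine h67_BD_sub (hH j) ?_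
          rw [hKc j]
          split_ifs with hj
          · have h1 := h67_BD_mul (hH N) (hfW (j - (N - n)))
            have e2 : (m - (d : ℤ) * (N : ℕ)) + (((d : ℤ) * n) - (d : ℤ) * ((j - (N - n) : ℕ) : ℤ)) =
                m - (d : ℤ) * j := by
              have e3 : ((j - (N - n) : ℕ) : ℤ) = (j : ℤ) - ((N : ℤ) - n) := by
                rw [Nat.cast_sub hj, Nat.cast_sub hNn]
              rw [e3]
              ring
            rw [e2] at h1
            exact h1
          · exact h67_BD_zero _
  refine key (H.natDegree + 1) H ?_ h
  exact lt_of_le_of_lt Polynomial.degree_le_natDegree (by exact_mod_cast Nat.lt_succ_self _)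

end series

end Pool.Agent.Helper54.SR
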