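import Pool.Agent.Helper54.SR.Defs

/-!
# SR-D9: a certificate descends to a finitely generated algebra
-/

set_option autoImplicit false

open Polynomial

namespace Pool.Agent.Helper54.SR

namespace CertDescent

variable {k S : Type} [Field k] [CommRing S] [Algebra k S]

/-- the map of bivariate polynomials given by the inclusion of a subalgebra -/
noncomputable def up (A : Subalgebra k S) : A[X][X] →+* S[X][X] :=
  Polynomial.mapRingHom (Polynomial.mapRingHom (A.val : A →+* S))

theorem up_sub (A : Subalgebra k S) (P Q : A[X][X]) : up A (P - Q) = up A P - up A Q :=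
  map_sub (up A) P Q

theorem up_injective (A : Subalgebra k S) : Function.Injective (up A) := by
  have h1 : Function.Injective (A.val : A →+* S) := Subtype.val_injective
  exact Polynomial.map_injective _ (Polynomial.map_injective _ h1)

theorem up_fS (A : Subalgebra k S) (f : k[X][X]) :
    up A (fS (algebraMap k A) f) = fS (algebraMap k S) f := by
  unfold up fS
  rw [Polynomial.coe_mapRingHom, Polynomial.map_map, Polynomial.mapRingHom_comp]
  rfl

theorem up_coeff (A : Subalgebra k S) (P : A[X][X]) (i j : ℕ) :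
    ((up A P).coeff i).coeff j = (((P.coeff i).coeff j : A) : S) := by
  unfold up
  rw [Polynomial.coe_mapRingHom, Polynomial.coeff_map, Polynomial.coe_mapRingHom,
    Polynomial.coeff_map]
  rfl

open Classical in
/-- the set of the nonzero coefficients -/
noncomputable def cf (P : S[X][X]) : Finset S :=
  P.support.biUnion fun i => (P.coeff i).support.image fun j => (P.coeff i).coeff j

theorem exists_lift {A : Subalgebra k S} {P : S[X][X]} (h : ∀ s ∈ cf P, s ∈ A) :
    ∃ P' : A[X][X], up A P' = P := by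
  classical
  have hc : ∀ i j, (P.coeff i).coeff j ∈ A := by
    intro i j
    by_cases h0 : (P.coeff i).coeff j = 0
    · rw [h0]; exact A.zero_mem
    · refine h _ ?_
      unfold cf
      rw [Finset.mem_biUnion]
      refine ⟨i, ?_, ?_⟩
      · rw [Polynomial.mem_support_iff]
        intro h1
        rw [h1] at h0
        exact h0 (Polynomial.coeff_zero j)
      · rw [Finset.mem_image]
        exact ⟨j, Polynomial.mem_support_iff.2 h0, rfl⟩
  have h1 : P ∈ Polynomial.lifts (Polynomial.mapRingHom (A.val : A →+* S)) := by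
    rw [Polynomial.lifts_iff_coeff_lifts]
    intro i
    have h2 : P.coeff i ∈ Polynomial.lifts (A.val : A →+* S) := by
      rw [Polynomial.lifts_iff_coeff_lifts]
      intro j
      exact ⟨⟨_, hc i j⟩, rfl⟩
    rw [Polynomial.mem_lifts] at h2
    obtain ⟨q, hq⟩ := h2
    exact ⟨q, hq⟩
  rw [Polynomial.mem_lifts] at h1
  obtain ⟨q, hq⟩ := h1
  exact ⟨q, hq⟩

/-- descent of a membership in a finitely generated ideal -/
theorem exists_mem (f : k[X][X]) {ι : Type} [Fintype ι] (g : ι → S[X][X]) (z : S[X][X])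
    (h : AdjoinRoot.mk (fS (algebraMap k S) f) z ∈
      Ideal.span (Set.range fun i => AdjoinRoot.mk (fS (algebraMap k S) f) (g i))) :
    ∃ T : Finset S, ∀ A : Subalgebra k S, (∀ s ∈ T, s ∈ A) → ∀ (g' : ι → A[X][X]) (z' : A[X][X]),
      (∀ i, up A (g' i) = g i) → up A z' = z →
      AdjoinRoot.mk (fS (algebraMap k A) f) z' ∈
        Ideal.span (Set.range fun i => AdjoinRoot.mk (fS (algebraMap k A) f) (g' i)) := by
  classical
  rw [Ideal.mem_span_range_iff_exists_fun] at h
  obtain ⟨c, hc⟩ := h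
  choose P hP using fun i => AdjoinRoot.mk_surjective (c i)
  have h1 : AdjoinRoot.mk (fS (algebraMap k S) f) z =
      AdjoinRoot.mk (fS (algebraMap k S) f) (∑ i, P i * g i) := by
    rw [← hc, map_sum]
    refine Finset.sum_congr rfl fun i _ => ?_
    rw [map_mul, hP]
  rw [AdjoinRoot.mk_eq_mk] at h1
  obtain ⟨R, hR⟩ := h1
  refine ⟨cf R ∪ Finset.univ.biUnion fun i => cf (P i), fun A hA g' z' hg hz => ?_⟩
  obtain ⟨R', hR'⟩ := exists_lift (A := A) (P := R) fun s hs =>
    hA s (Finset.mem_union_left _ hs)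
  have h2 := fun i => exists_lift (A := A) (P := P i) fun s hs =>
    hA s (Finset.mem_union_right _ (Finset.mem_biUnion.2 ⟨i, Finset.mem_univ _, hs⟩))
  choose P' hP' using h2
  have h3 : AdjoinRoot.mk (fS (algebraMap k A) f) z' =
      AdjoinRoot.mk (fS (algebraMap k A) f) (∑ i, P' i * g' i) := by
    rw [AdjoinRoot.mk_eq_mk]
    refine ⟨R', up_injective A ?_⟩
    rw [up_sub, map_mul, map_sum, up_fS, hR', hz, ← hR]
    congr 1
    refine Finset.sum_congr rfl fun i _ => ?_
    rw [map_mul, hP', hg]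
  rw [h3, Ideal.mem_span_range_iff_exists_fun]
  refine ⟨fun i => AdjoinRoot.mk _ (P' i), ?_⟩
  rw [map_sum]
  refine Finset.sum_congr rfl fun i _ => ?_
  rw [map_mul]

/-- the ideal identity of a certificate in terms of memberships -/
theorem ideal_iff {R : Type} [CommRing R] (F P Q U Y V W : R[X][X]) :
    (Ideal.span {AdjoinRoot.mk F P, AdjoinRoot.mk F Q} *
        Ideal.span {AdjoinRoot.mk F U, AdjoinRoot.mk F Y} =
      Ideal.span {AdjoinRoot.mk F U} * Ideal.span {AdjoinRoot.mk F V, AdjoinRoot.mk F W}) ↔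
    ((∀ i, AdjoinRoot.mk F ((![P * U, P * Y, Q * U, Q * Y] : Fin 4 → R[X][X]) i) ∈
        Ideal.span (Set.range fun j => AdjoinRoot.mk F ((![U * V, U * W] : Fin 2 → R[X][X]) j))) ∧
      ∀ j, AdjoinRoot.mk F ((![U * V, U * W] : Fin 2 → R[X][X]) j) ∈
        Ideal.span (Set.range fun i =>
          AdjoinRoot.mk F ((![P * U, P * Y, Q * U, Q * Y] : Fin 4 → R[X][X]) i))) := by
  have e1 : Ideal.span {AdjoinRoot.mk F P, AdjoinRoot.mk F Q} *
      Ideal.span {AdjoinRoot.mk F U, AdjoinRoot.mk F Y} =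
      Ideal.span (Set.range fun i =>
          AdjoinRoot.mk F ((![P * U, P * Y, Q * U, Q * Y] : Fin 4 → R[X][X]) i)) := by
    rw [Ideal.span_pair_mul_span_pair]
    congr 1
    ext x
    simp only [Set.mem_insert_iff, Set.mem_singleton_iff, Set.mem_range, Fin.exists_fin_succ,
      Matrix.cons_val_zero, Matrix.cons_val_succ, map_mul]
    simp [eq_comm]
  have e2 : Ideal.span {AdjoinRoot.mk F U} * Ideal.span {AdjoinRoot.mk F V, AdjoinRoot.mk F W} =
      Ideal.span (Set.range fun j => AdjoinRoot.mk F ((![U * V, U * W] : Fin 2 → R[X][X]) j)) := by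
    rw [Ideal.span_mul_span']
    congr 1
    ext x
    simp only [Set.singleton_mul, Set.image_insert_eq, Set.image_singleton, Set.mem_insert_iff,
      Set.mem_singleton_iff, Set.mem_range, Fin.exists_fin_succ,
      Matrix.cons_val_zero, Matrix.cons_val_succ, map_mul]
    simp [eq_comm]
  rw [e1, e2, le_antisymm_iff, Ideal.span_le, Ideal.span_le]
  constructor
  · rintro ⟨h1, h2⟩
    exact ⟨fun i => h1 ⟨i, rfl⟩, fun j => h2 ⟨j, rfl⟩⟩
  · rintro ⟨h1, h2⟩
    constructor
    · rintro _ ⟨i, rfl⟩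
      exact h1 i
    · rintro _ ⟨j, rfl⟩
      exact h2 j

end CertDescent

open CertDescent

/-- SR-D9 -/
theorem cert_descent {ℓ : ℕ} {k S : Type} [Field k] [CommRing S] [Algebra k S] (f : k[X][X])
    (c η : k) (u y : S) (h : Cert ℓ (algebraMap k S) f c η u y) :
    ∃ (A : Subalgebra k S) (hu : u ∈ A) (hy : y ∈ A), A.FG ∧
      Cert ℓ (algebraMap k A) f c η (⟨u, hu⟩ : A) (⟨y, hy⟩ : A) := by
  classical
  obtain ⟨H₁, H₂, H₁₂, hdeg, hcont, hpow, hid⟩ := h
  -- the power identity
  have hpow' : AdjoinRoot.mk (fS (algebraMap k S) f) (H₁₂ ^ ℓ) =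
      AdjoinRoot.mk (fS (algebraMap k S) f) (H₂ * H₁ ^ (ℓ - 1)) := by
    rw [map_pow, map_mul, map_pow]
    exact hpow
  rw [AdjoinRoot.mk_eq_mk] at hpow'
  obtain ⟨R, hR⟩ := hpow'
  -- the content
  have h1 : (1 : S) ∈ Ideal.span (Set.range fun q : ℕ × ℕ => (H₁.coeff q.1).coeff q.2) := by
    rw [hcont]
    exact Submodule.mem_top
  rw [Ideal.span, Finsupp.mem_span_range_iff_exists_finsupp] at h1
  obtain ⟨a, ha⟩ := h1
  -- the ideals
  rw [ideal_iff] at hid
  obtain ⟨hid1, hid2⟩ := hid
  choose T₁ hT₁ using fun i => exists_mem f _ _ (hid1 i)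
  choose T₂ hT₂ using fun j => exists_mem f _ _ (hid2 j)
  set T : Finset S := {u, y} ∪ cf H₁ ∪ cf H₂ ∪ cf H₁₂ ∪ cf R ∪ a.support.image a ∪
    Finset.univ.biUnion T₁ ∪ Finset.univ.biUnion T₂ with hT
  set A : Subalgebra k S := Algebra.adjoin k (T : Set S) with hA
  have hTA : ∀ s ∈ T, s ∈ A := fun s hs => Algebra.subset_adjoin hs
  have hu : u ∈ A := hTA u (by simp [hT])
  have hy : y ∈ A := hTA y (by simp [hT])
  obtain ⟨H₁', hH₁⟩ := exists_lift (A := A) (P := H₁) fun s hs => hTA s (by simp [hT, hs])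
  obtain ⟨H₂', hH₂⟩ := exists_lift (A := A) (P := H₂) fun s hs => hTA s (by simp [hT, hs])
  obtain ⟨H₁₂', hH₁₂⟩ := exists_lift (A := A) (P := H₁₂) fun s hs => hTA s (by simp [hT, hs])
  obtain ⟨R', hR'⟩ := exists_lift (A := A) (P := R) fun s hs => hTA s (by simp [hT, hs])
  have haA : ∀ q, a q ∈ A := by
    intro q
    by_cases h0 : a q = 0
    · rw [h0]; exact A.zero_mem
    · refine hTA _ ?_
      have : a q ∈ a.support.image a :=
        Finset.mem_image.2 ⟨q, Finsupp.mem_support_iff.2 h0, rfl⟩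
      simp only [hT, Finset.mem_union]
      exact Or.inl (Or.inl (Or.inr this))
  have hT₁A : ∀ i, ∀ s ∈ T₁ i, s ∈ A := fun i s hs => hTA s (by
    have : s ∈ Finset.univ.biUnion T₁ := Finset.mem_biUnion.2 ⟨i, Finset.mem_univ _, hs⟩
    simp only [hT, Finset.mem_union]
    exact Or.inl (Or.inr this))
  have hT₂A : ∀ i, ∀ s ∈ T₂ i, s ∈ A := fun i s hs => hTA s (by
    have : s ∈ Finset.univ.biUnion T₂ := Finset.mem_biUnion.2 ⟨i, Finset.mem_univ _, hs⟩
    simp only [hT, Finset.mem_union]
    exact Or.inr this)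
  refine ⟨A, hu, hy, Subalgebra.fg_adjoin_finset T, H₁', H₂', H₁₂', ?_, ?_, ?_, ?_⟩
  · rw [← hH₁] at hdeg
    have h2 : (up A H₁').natDegree = H₁'.natDegree := by
      unfold up
      rw [Polynomial.coe_mapRingHom]
      refine Polynomial.natDegree_map_eq_of_injective ?_ _
      have h1 : Function.Injective (A.val : A →+* S) := Subtype.val_injective
      exact Polynomial.map_injective _ h1
    rwa [h2] at hdeg
  · rw [Ideal.eq_top_iff_one]
    have e1 : (1 : A) = ∑ q ∈ a.support, (⟨a q, haA q⟩ : A) * (H₁'.coeff q.1).coeff q.2 := by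
      apply Subtype.ext
      rw [AddSubmonoidClass.coe_finsetSum, OneMemClass.coe_one, ← ha, Finsupp.sum]
      refine Finset.sum_congr rfl fun q _ => ?_
      rw [MulMemClass.coe_mul, ← hH₁, up_coeff, smul_eq_mul]
    rw [e1]
    exact Ideal.sum_mem _ fun q _ => Ideal.mul_mem_left _ _ (Ideal.subset_span ⟨q, rfl⟩)
  · rw [← map_pow, ← map_pow, ← map_mul, AdjoinRoot.mk_eq_mk]
    refine ⟨R', up_injective A ?_⟩
    rw [up_sub, map_mul, map_mul, map_pow, map_pow, hH₁, hH₂, hH₁₂, up_fS, hR', hR]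
  · have eu : up A (C (X - C (⟨u, hu⟩ : A))) = C (X - C u) := by
      unfold up
      simp
    have ey : up A (X - C (C (⟨y, hy⟩ : A))) = X - C (C y) := by
      unfold up
      simp
    have ec : up A (C (X - C (algebraMap k A c))) = C (X - C (algebraMap k S c)) := by
      unfold up
      simp
    have eη : up A (X - C (C (algebraMap k A η))) = X - C (C (algebraMap k S η)) := by
      unfold up
      simp
    have m1 : ∀ i, up A ((![H₁' * C (X - C (⟨u, hu⟩ : A)), H₁' * (X - C (C (⟨y, hy⟩ : A))),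
        H₂' * C (X - C (⟨u, hu⟩ : A)), H₂' * (X - C (C (⟨y, hy⟩ : A)))] : Fin 4 → A[X][X]) i) =
        (![H₁ * C (X - C u), H₁ * (X - C (C y)), H₂ * C (X - C u), H₂ * (X - C (C y))] :
          Fin 4 → S[X][X]) i := by
      intro i
      fin_cases i
      · show up A (_ * _) = _ * _
        rw [map_mul, hH₁, eu]
      · show up A (_ * _) = _ * _
        rw [map_mul, hH₁, ey]
      · show up A (_ * _) = _ * _
        rw [map_mul, hH₂, eu]
      · show up A (_ * _) = _ * _
        rw [map_mul, hH₂, ey]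
    have m2 : ∀ i, up A ((![C (X - C (⟨u, hu⟩ : A)) * C (X - C (algebraMap k A c)),
        C (X - C (⟨u, hu⟩ : A)) * (X - C (C (algebraMap k A η)))] : Fin 2 → A[X][X]) i) =
        (![C (X - C u) * C (X - C (algebraMap k S c)),
          C (X - C u) * (X - C (C (algebraMap k S η)))] : Fin 2 → S[X][X]) i := by
      intro i
      fin_cases i
      · show up A (_ * _) = _ * _
        rw [map_mul, eu, ec]
      · show up A (_ * _) = _ * _
        rw [map_mul, eu, eη]
    rw [ideal_iff]
    exact ⟨fun i => hT₁ i A (hT₁A i) _ _ m2 (m1 i), fun i => hT₂ i A (hT₂A i) _ _ m1 (m2 i)⟩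

end Pool.Agent.Helper54.SR
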